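import Pool.Agent.Helper74.CW.Defs

/-!
# Counting the elements `ξ` by the dimension of `S ∩ ξ T`
-/

set_option autoImplicit false

namespace Pool.Agent.Helper74.CW

open Module

section CNT

variable {F K : Type*} [Field F] [Field K] [Algebra F K]

theorem cnt_le [FiniteDimensional F K] (S T : Submodule F K) (ξ : K) :
    finrank F ↥(S ⊓ sc ξ T) ≤ finrank F T :=
  (Submodule.finrank_mono inf_le_right).trans (Submodule.finrank_map_le _ _)

theorem cnt_sc [FiniteDimensional F K] (T : Submodule F K) {ξ : K} (h : ξ ≠ 0) :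
    finrank F ↥(sc ξ T) = finrank F T :=
  (Submodule.equivMapOfInjective (LinearMap.mulLeft F ξ)
    (fun _ _ hab => mul_left_cancel₀ h hab) T).finrank_eq.symm

theorem cnt_nz [Finite F] [Fintype K] [FiniteDimensional F K] [DecidableEq K]
    (W : Submodule F K) [DecidablePred fun x : K => x ∈ W ∧ x ≠ 0] :
    (Finset.univ.filter fun x : K => x ∈ W ∧ x ≠ 0).card =
      Nat.card F ^ finrank F W - 1 := by
  classical
  have h1 : (Finset.univ.filter fun x : K => x ∈ W ∧ x ≠ 0) =
      (Finset.univ.filter fun x : K => x ∈ W).erase 0 := by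
    ext x
    simp only [Finset.mem_filter, Finset.mem_univ, true_and, Finset.mem_erase]
    tauto
  rw [h1, Finset.card_erase_of_mem (by simp), ← Module.natCard_eq_pow_finrank (K := F) (V := W),
    Nat.card_eq_fintype_card, Fintype.card_subtype]

theorem cnt_inn [Fintype K] [DecidableEq K] (S T : Submodule F K) (i : ℕ) :
    inn S T i = ((Finset.univ.filter fun ξ : K => ξ ≠ 0).filter
      fun ξ => finrank F ↥(S ⊓ sc ξ T) = i).card := by
  classical
  unfold inn
  rw [Nat.card_eq_fintype_card, Fintype.card_subtype, Finset.filter_filter]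

theorem inn_total [Finite F] [FiniteDimensional F K] (S T : Submodule F K) {r : ℕ}
    (hr : finrank F T ≤ r) : ∑ i ∈ Finset.range (r + 1), inn S T i =
      Nat.card F ^ finrank F K - 1 := by
  classical
  have : Finite K := Module.finite_of_finite F
  have : Fintype K := Fintype.ofFinite K
  simp_rw [cnt_inn]
  rw [← Finset.card_eq_sum_card_fiberwise]
  · have h1 : (Finset.univ.filter fun ξ : K => ξ ≠ 0) = (Finset.univ : Finset K).erase 0 := by
      ext x
      simp
    rw [h1, Finset.card_erase_of_mem (Finset.mem_univ _),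
      ← Module.natCard_eq_pow_finrank (K := F) (V := K), Nat.card_eq_fintype_card,
      Finset.card_univ]
  · intro ξ _
    rw [Finset.coe_range, Set.mem_Iio]
    exact Nat.lt_succ_of_le ((cnt_le S T ξ).trans hr)

theorem inn_zero [FiniteDimensional F K] (S T : Submodule F K) {i : ℕ} (hi : finrank F T < i) :
    inn S T i = 0 := by
  unfold inn
  rw [Nat.card_eq_zero]
  left
  refine ⟨fun x => ?_⟩
  have h1 := cnt_le S T x.1
  have h2 := x.2.2
  omega

theorem inn_weighted [Finite F] [FiniteDimensional F K] (S T : Submodule F K) {r : ℕ}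
    (hr : finrank F T ≤ r) : ∑ i ∈ Finset.range (r + 1), inn S T i * (Nat.card F ^ i - 1) =
      (Nat.card F ^ finrank F S - 1) * (Nat.card F ^ finrank F T - 1) := by
  classical
  have : Finite K := Module.finite_of_finite F
  have : Fintype K := Fintype.ofFinite K
  have h1 : ∑ i ∈ Finset.range (r + 1), inn S T i * (Nat.card F ^ i - 1) =
      ∑ ξ ∈ Finset.univ.filter (fun ξ : K => ξ ≠ 0),
        (Nat.card F ^ finrank F ↥(S ⊓ sc ξ T) - 1) := by
    rw [← Finset.sum_fiberwise_of_maps_to (g := fun ξ => finrank F ↥(S ⊓ sc ξ T))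
      (t := Finset.range (r + 1))]
    · apply Finset.sum_congr rfl
      intro i _
      rw [cnt_inn, ← smul_eq_mul, ← Finset.sum_const]
      apply Finset.sum_congr rfl
      intro ξ hξ
      rw [(Finset.mem_filter.1 hξ).2]
    · intro ξ _
      rw [Finset.mem_range]
      exact Nat.lt_succ_of_le ((cnt_le S T ξ).trans hr)
  rw [h1, ← cnt_nz S, ← cnt_nz T, ← Finset.card_product]
  simp_rw [← cnt_nz]
  rw [← Finset.card_sigma]
  refine Finset.card_bij' (fun p _ => (p.2, p.2 / p.1)) (fun p _ => ⟨p.1 / p.2, p.1⟩) ?_ ?_ ?_ ?_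
  · rintro ⟨ξ, x⟩ hp
    simp only [Finset.mem_sigma, Finset.mem_filter, Finset.mem_univ, true_and,
      Submodule.mem_inf] at hp
    obtain ⟨h2, ⟨h3, h4⟩, h5⟩ := hp
    simp only [Finset.mem_product, Finset.mem_filter, Finset.mem_univ, true_and]
    refine ⟨⟨h3, h5⟩, ?_, div_ne_zero h5 h2⟩
    obtain ⟨t, ht, rfl⟩ := h4
    simp only [LinearMap.mulLeft_apply]
    rw [mul_div_cancel_left₀ _ h2]
    exact ht
  · rintro ⟨x, t⟩ hp
    simp only [Finset.mem_product, Finset.mem_filter, Finset.mem_univ, true_and] at hp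
    obtain ⟨⟨h2, h3⟩, h4, h5⟩ := hp
    simp only [Finset.mem_sigma, Finset.mem_filter, Finset.mem_univ, true_and,
      Submodule.mem_inf]
    refine ⟨div_ne_zero h3 h5, ⟨h2, ⟨t, h4, ?_⟩⟩, h3⟩
    simp only [LinearMap.mulLeft_apply]
    exact div_mul_cancel₀ _ h5
  · rintro ⟨ξ, x⟩ hp
    simp only [Finset.mem_sigma, Finset.mem_filter, Finset.mem_univ, true_and,
      Submodule.mem_inf] at hp
    obtain ⟨h2, ⟨h3, h4⟩, h5⟩ := hp
    simp only [Sigma.mk.injEq, heq_eq_eq, and_true]
    field_simp
  · rintro ⟨x, t⟩ hp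
    simp only [Finset.mem_product, Finset.mem_filter, Finset.mem_univ, true_and] at hp
    obtain ⟨⟨h2, h3⟩, h4, h5⟩ := hp
    simp only [Prod.mk.injEq, true_and]
    field_simp

theorem inn_colon [Finite F] [FiniteDimensional F K] (S T : Submodule F K) :
    inn S T (finrank F T) = Nat.card F ^ finrank F (colon S T) - 1 := by
  classical
  have : Finite K := Module.finite_of_finite F
  have : Fintype K := Fintype.ofFinite K
  rw [cnt_inn, ← cnt_nz, Finset.filter_filter]
  congr 1
  ext ξ
  simp only [Finset.mem_filter, Finset.mem_univ, true_and]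
  constructor
  · rintro ⟨h1, h2⟩
    refine ⟨?_, h1⟩
    have h3 : S ⊓ sc ξ T = sc ξ T :=
      Submodule.eq_of_le_of_finrank_eq inf_le_right (by rw [h2, cnt_sc T h1])
    intro t ht
    have h4 : ξ * t ∈ sc ξ T := ⟨t, ht, rfl⟩
    rw [← h3] at h4
    exact h4.1
  · rintro ⟨h1, h2⟩
    refine ⟨h2, ?_⟩
    have h3 : sc ξ T ≤ S := by
      rintro x ⟨t, ht, rfl⟩
      exact h1 t ht
    rw [inf_eq_right.2 h3, cnt_sc T h2]

end CNT

end Pool.Agent.Helper74.CW
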