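import Pool.Agent.Helper74.CW.LINE
import Pool.Agent.Helper82.CW.SYM
import Pool.Agent.Helper30.CW.CNT
import Pool.Agent.Helper76.CW.SING

/-!
# The numbers `dim (S ∩ ξ S)` for a space of dimension three
-/

set_option autoImplicit false

namespace Pool.Agent.Helper74.CW

open Module Polynomial

section SELF

variable {F K : Type*} [Field F] [Field K] [Algebra F K]

/-! ### the stabiliser -/

theorem self_colon (hB : Big F K) {S : Submodule F K} (hS : finrank F S = 3) {ξ : K}
    (h : ξ ∈ colon S S) : ξ ∈ Set.range (algebraMap F K) := by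
  by_contra hξ
  have hne : S ≠ ⊥ := by
    intro h0
    rw [h0, finrank_bot] at hS
    omega
  obtain ⟨s, hs, hs0⟩ := Submodule.exists_mem_ne_zero_of_ne_bot hne
  have hp := hB.pow hξ
  have hmem : ∀ k : ℕ, ξ ^ k * s ∈ S := by
    intro k
    induction k with
    | zero => simpa using hs
    | succ k ih =>
        have := h _ ih
        rwa [← mul_assoc, ← pow_succ'] at this
  have hli : LinearIndependent F (fun i : Fin 4 => (⟨ξ ^ (i : ℕ) * s, hmem i⟩ : S)) := by
    rw [Fintype.linearIndependent_iff]
    intro g hg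
    have h1 : ∑ i : Fin 4, g i • (ξ ^ (i : ℕ) * s) = 0 := by
      have := congrArg (Subtype.val) hg
      simpa [Submodule.coe_sum] using this
    have h2 : (∑ i : Fin 4, g i • ξ ^ (i : ℕ)) * s = 0 := by
      rw [Finset.sum_mul, ← h1]
      apply Finset.sum_congr rfl
      intro i _
      rw [smul_mul_assoc]
    have h3 : ∑ i : Fin 4, g i • ξ ^ (i : ℕ) = 0 := (mul_eq_zero.1 h2).resolve_right hs0
    have h4 := (hp.comp (Fin.castLE (by norm_num : 4 ≤ 7)) (Fin.castLE_injective _))
    rw [Fintype.linearIndependent_iff] at h4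
    exact h4 g (by simpa using h3)
  have : FiniteDimensional F S := FiniteDimensional.of_finrank_pos (by omega)
  have := hli.fintype_card_le_finrank
  rw [hS, Fintype.card_fin] at this
  omega

theorem self_three [Finite F] [FiniteDimensional F K] (hB : Big F K) {S : Submodule F K}
    (hS : finrank F S = 3) : inn S S 3 = Nat.card F - 1 := by
  have h1 := inn_colon S S
  rw [hS] at h1
  have h2 : colon S S = Submodule.span F {1} := by
    ext ξ
    rw [Submodule.mem_span_singleton]
    constructor
    · intro h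
      obtain ⟨c, rfl⟩ := self_colon hB hS h
      exact ⟨c, by rw [Algebra.smul_def, mul_one]⟩
    · rintro ⟨c, rfl⟩ t ht
      rw [smul_mul_assoc, one_mul]
      exact S.smul_mem c ht
  rw [h1, h2, finrank_span_singleton one_ne_zero, pow_one]

theorem self_not [Finite F] [FiniteDimensional F K] (hB : Big F K) {S : Submodule F K}
    (hS : finrank F S = 3) (h : ¬ Con S) : inn S S 3 = Nat.card F - 1 ∧ inn S S 2 = 0 := by
  refine ⟨self_three hB hS, ?_⟩
  unfold inn
  rw [Nat.card_eq_zero]
  left
  refine ⟨?_⟩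
  rintro ⟨ξ, h0, h2⟩
  by_cases hξ : ξ ∈ Set.range (algebraMap F K)
  · obtain ⟨c, rfl⟩ := hξ
    have hc : c ≠ 0 := by
      intro hc
      rw [hc, map_zero] at h0
      exact h0 rfl
    have h3 : sc (algebraMap F K c) S = S := by
      ext x
      constructor
      · rintro ⟨t, ht, rfl⟩
        simp only [LinearMap.mulLeft_apply]
        rw [← Algebra.smul_def]
        exact S.smul_mem c ht
      · intro hx
        refine ⟨c⁻¹ • x, S.smul_mem _ hx, ?_⟩
        simp only [LinearMap.mulLeft_apply]
        rw [← Algebra.smul_def, smul_smul, mul_inv_cancel₀ hc, one_smul]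
    rw [h3, inf_idem, hS] at h2
    omega
  · exact h (con_of hB hS hξ (by omega))

/-! ### a space which is not of the form `w ⟨1, a, a ^ 2⟩` -/

theorem exists_not_con (hB : Big F K) {a : K} (ha : a ∉ Set.range (algebraMap F K)) :
    ∃ S : Submodule F K, finrank F S = 3 ∧ ¬ Con S := by
  classical
  have hp := hB.pow ha
  set v : Fin 3 → K := ![1, a, a ^ 3] with hv
  have hvli : LinearIndependent F v := by
    have h1 := hp.comp (![0, 1, 3] : Fin 3 → Fin 7) (by decide)
    have h2 : v = (fun i : Fin 7 => a ^ (i : ℕ)) ∘ (![0, 1, 3] : Fin 3 → Fin 7) := by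
      funext i
      fin_cases i <;> simp [hv]
    rw [h2]
    exact h1
  refine ⟨Submodule.span F (Set.range v), ?_, ?_⟩
  · rw [finrank_span_eq_card hvli, Fintype.card_fin]
  · rintro ⟨w, b, hw, hb, hS⟩
    have hm : ∀ i, v i ∈ sc w (Submodule.span F {1, b, b ^ 2}) := by
      intro i
      rw [← hS]
      exact Submodule.subset_span ⟨i, rfl⟩
    set P : Finset K := {w * w * 1, w * w * b, w * w * b ^ 2, w * w * b ^ 3, w * w * b ^ 4} with hP
    have hprod : ∀ x y : K, x ∈ sc w (Submodule.span F {1, b, b ^ 2}) →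
        y ∈ sc w (Submodule.span F {1, b, b ^ 2}) → x * y ∈ Submodule.span F (P : Set K) := by
      rintro x y ⟨x', hx, rfl⟩ ⟨y', hy, rfl⟩
      simp only [LinearMap.mulLeft_apply]
      rw [SetLike.mem_coe, Submodule.mem_span_triple] at hx hy
      obtain ⟨x0, x1, x2, rfl⟩ := hx
      obtain ⟨y0, y1, y2, rfl⟩ := hy
      have h1 : w * (x0 • (1 : K) + x1 • b + x2 • b ^ 2) * (w * (y0 • (1 : K) + y1 • b + y2 • b ^ 2))
          = (x0 * y0) • (w * w * 1) + (x0 * y1 + x1 * y0) • (w * w * b) +
            (x0 * y2 + x1 * y1 + x2 * y0) • (w * w * b ^ 2) +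
            (x1 * y2 + x2 * y1) • (w * w * b ^ 3) + (x2 * y2) • (w * w * b ^ 4) := by
        simp only [Algebra.smul_def, map_add, map_mul]
        ring
      rw [h1]
      have hin : ∀ z ∈ P, z ∈ Submodule.span F (P : Set K) := fun z hz => Submodule.subset_span hz
      refine add_mem (add_mem (add_mem (add_mem ?_ ?_) ?_) ?_) ?_ <;>
        refine Submodule.smul_mem _ _ (hin _ ?_) <;> simp [hP]
    set u : Fin 6 → K := (fun i : Fin 7 => a ^ (i : ℕ)) ∘ (![0, 1, 2, 3, 4, 6] : Fin 6 → Fin 7)
      with hu
    have huli : LinearIndependent F u := hp.comp _ (by decide)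
    have hspan : Set.range u ⊆ Submodule.span F (P : Set K) := by
      rintro _ ⟨i, rfl⟩
      have h00 := hprod _ _ (hm 0) (hm 0)
      have h01 := hprod _ _ (hm 0) (hm 1)
      have h11 := hprod _ _ (hm 1) (hm 1)
      have h02 := hprod _ _ (hm 0) (hm 2)
      have h12 := hprod _ _ (hm 1) (hm 2)
      have h22 := hprod _ _ (hm 2) (hm 2)
      simp only [hv, Matrix.cons_val_zero, Matrix.cons_val_one, Matrix.cons_val] at h00 h01 h11 h02 h12 h22
      fin_cases i
      · simpa [hu] using h00
      · simpa [hu] using h01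
      · simpa [hu, pow_two] using h11
      · simpa [hu] using h02
      · have : a ^ 4 = a * a ^ 3 := by ring
        simpa [hu, this] using h12
      · have : a ^ 6 = a ^ 3 * a ^ 3 := by ring
        simpa [hu, this] using h22
    have hle := linearIndependent_le_span_aux' u huli (P : Set K) hspan
    have hc : P.card ≤ 5 := by
      rw [hP]
      exact Finset.card_le_five
    have h7 : (6 : ℕ) ≤ P.card := by simpa using hle
    omega

theorem selfc_one {F : Type*} [Field F] [Fintype F] [DecidableEq F] (c : F) :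
    (∑ y : F × F, if y.1 * y.2 + c = 0 then (1 : ℤ) else 0) =
      (Fintype.card F - 1) + if c = 0 then (Fintype.card F : ℤ) else 0 := by
  rw [Fintype.sum_prod_type]
  have h1 : ∀ x : F, (∑ y : F, if x * y + c = 0 then (1 : ℤ) else 0) =
      if x = 0 then (if c = 0 then (Fintype.card F : ℤ) else 0) else 1 := by
    intro x
    by_cases hx : x = 0
    · rw [if_pos hx, hx]
      by_cases hc : c = 0
      · simp [hc]
      · simp [hc]
    · rw [if_neg hx]
      have h2 : ∀ y : F, (x * y + c = 0) ↔ y = -c / x := by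
        intro y
        rw [eq_div_iff hx]
        constructor
        · intro h
          linear_combination h
        · intro h
          linear_combination h
      simp_rw [h2]
      simp
  simp only [h1]
  rw [← Finset.add_sum_erase _ _ (Finset.mem_univ (0 : F)), if_pos rfl]
  have h3 : ∑ x ∈ (Finset.univ : Finset F).erase 0,
      (if x = 0 then (if c = 0 then (Fintype.card F : ℤ) else 0) else 1) =
      ∑ x ∈ (Finset.univ : Finset F).erase 0, (1 : ℤ) := by
    apply Finset.sum_congr rfl
    intro x hx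
    rw [if_neg (Finset.ne_of_mem_erase hx)]
  rw [h3, Finset.sum_const, Finset.card_erase_of_mem (Finset.mem_univ _), Finset.card_univ,
    nsmul_eq_mul, mul_one]
  have h4 : 1 ≤ Fintype.card F := Fintype.card_pos
  push_cast [h4]
  ring

theorem selfc_count {F : Type*} [Field F] [Fintype F] [DecidableEq F] :
    (∑ x : F × F, ∑ y : F × F, if (x.1 + x.2) * (y.1 * y.2 + x.1 * x.2) = 0 then (1 : ℤ) else 0) =
      2 * (Fintype.card F : ℤ) ^ 3 - Fintype.card F := by
  set q : ℤ := (Fintype.card F : ℤ) with hq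
  have h1 : ∀ x : F × F, (∑ y : F × F,
      if (x.1 + x.2) * (y.1 * y.2 + x.1 * x.2) = 0 then (1 : ℤ) else 0) =
      (q - 1) + q * (if x.1 * x.2 + 0 = 0 then 1 else 0) +
        (q ^ 2 - (q - 1)) * (if x.1 + x.2 = 0 then 1 else 0) -
        q * (if x = 0 then 1 else 0) := by
    intro x
    by_cases hs : x.1 + x.2 = 0
    · have h2 : (∑ y : F × F,
          if (x.1 + x.2) * (y.1 * y.2 + x.1 * x.2) = 0 then (1 : ℤ) else 0) = q ^ 2 := by
        simp only [hs, zero_mul, if_true, Finset.sum_const, Finset.card_univ, Fintype.card_prod,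
          nsmul_eq_mul, mul_one]
        push_cast
        ring
      rw [h2, if_pos hs]
      by_cases hx : x = 0
      · rw [if_pos hx, if_pos (by rw [hx]; simp)]
        ring
      · rw [if_neg hx, if_neg]
        · ring
        · intro h3
          apply hx
          have h4 : x.2 = -x.1 := by linear_combination hs
          rw [h4] at h3
          have h5 : x.1 = 0 := by
            have : x.1 * x.1 = 0 := by linear_combination -h3
            exact mul_self_eq_zero.1 this
          ext
          · exact h5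
          · rw [h4, h5]
            simp
    · have h2 : ∀ y : F × F, ((x.1 + x.2) * (y.1 * y.2 + x.1 * x.2) = 0) ↔
          (y.1 * y.2 + x.1 * x.2 = 0) := fun y => by simp [hs]
      simp_rw [h2]
      have hx0 : ¬ x = 0 := by
        intro hx
        rw [hx] at hs
        simp at hs
      rw [selfc_one, if_neg hs, if_neg hx0]
      by_cases hc : x.1 * x.2 = 0
      · rw [if_pos hc, if_pos (by rw [hc, add_zero])]
        ring
      · rw [if_neg hc, if_neg (by rwa [add_zero])]
        ring
  simp only [h1]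
  rw [Finset.sum_sub_distrib, Finset.sum_add_distrib, Finset.sum_add_distrib, ← Finset.mul_sum,
    ← Finset.mul_sum, ← Finset.mul_sum, selfc_one, if_pos rfl]
  have h3 : (∑ x : F × F, if x.1 + x.2 = 0 then (1 : ℤ) else 0) = q := by
    rw [Fintype.sum_prod_type]
    have : ∀ x : F, (∑ y : F, if x + y = 0 then (1 : ℤ) else 0) = 1 := by
      intro x
      have h2 : ∀ y : F, (x + y = 0) ↔ y = -x := fun y => by
        rw [add_comm]
        exact add_eq_zero_iff_eq_neg
      simp_rw [h2]
      simp
    simp only [this]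
    simp [hq]
  have h4 : (∑ x : F × F, if x = 0 then (1 : ℤ) else 0) = 1 := by simp
  rw [h3, h4, Finset.sum_const, Finset.card_univ, Fintype.card_prod, nsmul_eq_mul]
  push_cast
  rw [← hq]
  ring

/-- the matrices in the kernel for `(1, a, a ^ 2)` -/
def selfM {F : Type*} [Field F] (p : (F × F) × F × F) : Matrix (Fin 3) (Fin 3) F :=
  !![0, p.2.1, p.1.1; -p.2.1, -p.1.1 - p.1.2, p.2.2; p.1.2, -p.2.2, 0]

theorem selfM_det {F : Type*} [Field F] (p : (F × F) × F × F) :
    (selfM p).det = (p.1.1 + p.1.2) * (p.2.1 * p.2.2 + p.1.1 * p.1.2) := by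
  unfold selfM
  rw [Matrix.det_fin_three]
  simp only [Matrix.of_apply, Matrix.cons_val', Matrix.cons_val_zero, Matrix.cons_val_one,
    Matrix.cons_val]
  ring

theorem selfM_inj {F : Type*} [Field F] : Function.Injective (selfM (F := F)) := by
  intro p p' h
  have h01 := congrFun (congrFun h 0) 1
  have h02 := congrFun (congrFun h 0) 2
  have h12 := congrFun (congrFun h 1) 2
  have h20 := congrFun (congrFun h 2) 0
  simp [selfM] at h01 h02 h12 h20
  ext
  · exact h02
  · exact h20
  · exact h01
  · exact h12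

theorem selfM_mem (hB : Big F K) {a : K} (ha : a ∉ Set.range (algebraMap F K))
    (X : Matrix (Fin 3) (Fin 3) F) : X ∈ NN F ![1, a, a ^ 2] ![1, a, a ^ 2] ↔
      ∃ p, selfM p = X := by
  have hp := Fintype.linearIndependent_iff.1 (hB.pow ha)
  have hX : (X ∈ NN F ![1, a, a ^ 2] ![1, a, a ^ 2]) ↔ ∑ i, ∑ j, X i j •
      ((![1, a, a ^ 2] : Fin 3 → K) i * (![1, a, a ^ 2] : Fin 3 → K) j) = 0 := Iff.rfl
  rw [hX]
  have e : ∑ i, ∑ j, X i j •
      ((![1, a, a ^ 2] : Fin 3 → K) i * (![1, a, a ^ 2] : Fin 3 → K) j) =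
      ∑ i : Fin 7, (![X 0 0, X 0 1 + X 1 0, X 0 2 + X 1 1 + X 2 0, X 1 2 + X 2 1, X 2 2, 0, 0] :
        Fin 7 → F) i • a ^ (i : ℕ) := by
    simp only [Fin.sum_univ_succ, Algebra.smul_def]
    simp [map_add]
    ring
  rw [e]
  constructor
  · intro h
    have h1 := hp _ h
    have g0 := h1 0
    have g1 := h1 1
    have g2 := h1 2
    have g3 := h1 3
    have g4 := h1 4
    simp at g0 g1 g2 g3 g4
    refine ⟨((X 0 2, X 2 0), (X 0 1, X 1 2)), ?_⟩
    ext i j
    fin_cases i <;> fin_cases j <;> simp [selfM]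
    · exact g0.symm
    · linear_combination -g1
    · linear_combination -g2
    · linear_combination -g3
    · exact g4.symm
  · rintro ⟨p, rfl⟩
    apply Finset.sum_eq_zero
    intro i _
    fin_cases i <;> simp [selfM]
    left
    ring

theorem self_sing [Finite F] (hB : Big F K) {a : K} (ha : a ∉ Set.range (algebraMap F K)) :
    (sing (NN F ![1, a, a ^ 2] ![1, a, a ^ 2]) : ℤ) = 2 * (Nat.card F : ℤ) ^ 3 - Nat.card F - 1 := by
  classical
  have : Fintype F := Fintype.ofFinite F
  have h1 : sing (NN F ![1, a, a ^ 2] ![1, a, a ^ 2]) =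
      ((Finset.univ.filter fun p : (F × F) × F × F =>
        (p.1.1 + p.1.2) * (p.2.1 * p.2.2 + p.1.1 * p.1.2) = 0).erase 0).card := by
    unfold sing
    rw [← Fintype.card_coe, ← Nat.card_eq_fintype_card]
    symm
    apply Nat.card_congr
    refine Equiv.ofBijective (fun p => ⟨selfM p.1, (selfM_mem hB ha _).2 ⟨p.1, rfl⟩, ?_, ?_⟩) ?_
    · intro h0
      have h2 := Finset.ne_of_mem_erase p.2
      apply h2
      apply selfM_inj
      rw [h0]
      ext i j
      fin_cases i <;> fin_cases j <;> simp [selfM]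
    · have h2 := (Finset.mem_filter.1 (Finset.mem_of_mem_erase p.2)).2
      rw [selfM_det]
      exact h2
    · constructor
      · intro p p' hpp
        apply Subtype.ext
        apply selfM_inj
        exact congrArg Subtype.val hpp
      · rintro ⟨X, hX, hX0, hX1⟩
        obtain ⟨p, rfl⟩ := (selfM_mem hB ha _).1 hX
        refine ⟨⟨p, ?_⟩, rfl⟩
        rw [Finset.mem_erase, Finset.mem_filter]
        refine ⟨?_, Finset.mem_univ _, ?_⟩
        · rintro rfl
          apply hX0
          ext i j
          fin_cases i <;> fin_cases j <;> simp [selfM]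
        · rw [← selfM_det]
          exact hX1
  rw [h1, Finset.card_erase_of_mem (by simp)]
  have h2 : ((Finset.univ.filter fun p : (F × F) × F × F =>
        (p.1.1 + p.1.2) * (p.2.1 * p.2.2 + p.1.1 * p.1.2) = 0).card : ℤ) =
      2 * (Fintype.card F : ℤ) ^ 3 - Fintype.card F := by
    rw [← selfc_count, Finset.card_filter]
    push_cast
    rw [Fintype.sum_prod_type]
  have h3 : 1 ≤ (Finset.univ.filter fun p : (F × F) × F × F =>
        (p.1.1 + p.1.2) * (p.2.1 * p.2.2 + p.1.1 * p.1.2) = 0).card :=
    Finset.card_pos.2 ⟨0, by simp⟩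
  push_cast [h3]
  rw [h2, Nat.card_eq_fintype_card]

theorem self_con [Finite F] [FiniteDimensional F K] (hB : Big F K) {S : Submodule F K}
    (h : Con S) : inn S S 3 = Nat.card F - 1 ∧
      inn S S 2 = (Nat.card F - 1) * (Nat.card F ^ 2 + Nat.card F) := by
  have hS := hB.con_finrank h
  refine ⟨self_three hB hS, ?_⟩
  obtain ⟨w, a, hw, ha, rfl⟩ := h
  rw [inn_sc _ _ hw hw]
  set t : Fin 3 → K := ![1, a, a ^ 2] with ht
  have htli : LinearIndependent F t := by
    have h1 := (hB.pow ha).comp (![0, 1, 2] : Fin 3 → Fin 7) (by decide)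
    have h2 : t = (fun i : Fin 7 => a ^ (i : ℕ)) ∘ (![0, 1, 2] : Fin 3 → Fin 7) := by
      funext i
      fin_cases i <;> simp [ht]
    rw [h2]
    exact h1
  have hr : Set.range t = {1, a, a ^ 2} := by
    ext x
    constructor
    · rintro ⟨i, rfl⟩
      fin_cases i <;> simp [ht]
    · rintro (rfl | rfl | rfl)
      · exact ⟨0, rfl⟩
      · exact ⟨1, rfl⟩
      · exact ⟨2, rfl⟩
  have h3 := card_sing htli htli
  have h4 := self_sing hB ha
  rw [hr] at h3
  have h5 : inn (Submodule.span F ({1, a, a ^ 2} : Set K)) (Submodule.span F {1, a, a ^ 2}) 3 =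
      Nat.card F - 1 := by
    apply self_three hB
    rw [← hr, finrank_span_eq_card htli, Fintype.card_fin]
  rw [h5] at h3
  have h6 : 1 ≤ Nat.card F := Nat.card_pos
  rw [h3] at h4
  have h7 : (inn (Submodule.span F ({1, a, a ^ 2} : Set K)) (Submodule.span F {1, a, a ^ 2}) 2 : ℤ) =
      ((Nat.card F - 1) * (Nat.card F ^ 2 + Nat.card F) : ℕ) := by
    push_cast [h6] at h4 ⊢
    linear_combination h4
  exact_mod_cast h7

end SELF


end Pool.Agent.Helper74.CW
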